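import Pool.Agent.Q181.TG.Stm1

set_option autoImplicit false

/-! Project TG of helper181, job TG-EAR: a cut vertex, and the classification of strips. -/

namespace Pool.Agent.Q26.TG

open Pool.Agent.Q181.TG Pool.Agent.Q181.BD

theorem t_ear : S_comp → S_ear1 → S_ear2 → S_ear3 → S_twop → S_ear := by
  intro hcomp h1 h2 h3 htw V W c T hN hS hTT z d L hz
  by_contra hcon
  push Not at hcon
  have fin := hcomp V W c T hN hS hTT z d L hz
  obtain ⟨hper, D, hD⟩ := h1 V W T hS z d L hz fin
  obtain ⟨i, a, J, s, hJ, hs, r1, r2, r3, r4, r5⟩ := h2 (Ear W z) L D hz.pos hper hD hcon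
  obtain ⟨z', z'', d', d'', L', L'', p1, p2, hne⟩ :=
    h3 V W T hS z d L hz i a J s hJ hs r1 r2 r3 r4 r5
  exact hTT (htw V W c T hN hS z' z'' d' d'' L' L'' p1 p2 hne)

theorem per_neg {V : Type} {W : V → V → ℤ} {T : Equiv.Perm V} (hsym : ∀ u v, W u v = W v u)
    {z : ℤ → V} {d : ℤ} {L : ℕ} (h : Per W T z d L) : Per W T (fun k => z (-k)) (-d) L := by
  refine ⟨h.pos, neg_ne_zero.2 h.ne, fun a b hab => neg_injective (h.inj hab), fun j => ?_,
    fun j => ?_⟩
  · rw [hsym]
    have := h.adj (-(j + 1))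
    have e : -(j + 1) + 1 = -j := by ring
    rwa [e] at this
  · have h1 := h.per (-(j + L))
    have e : -(j + (L : ℤ)) + L = -j := by ring
    rw [e] at h1
    rw [← h1, ← Equiv.Perm.mul_apply, ← zpow_add, neg_add_cancel, zpow_zero, Equiv.Perm.one_apply]

theorem t_class : S_per → S_ear → S_left → S_nest → S_class := by
  intro hper hear hleft hnest V W c T hN hS
  by_cases hV : Nonempty V
  · by_cases hTT : TT W
    · exact Or.inl hTT
    · right
      have hu : (Set.univ : Set V).Nonempty := Set.univ_nonempty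
      obtain ⟨z₀, d₀, L, hz₀, -⟩ := hper V W T hS Set.univ 1 one_ne_zero hu
        (fun v => ⟨fun _ => trivial, fun _ => trivial⟩) (fun u _ v _ => by
          have h := hS.conn u v
          unfold Conn at h
          unfold CI
          have key : ∀ a b, W a b ≠ 0 → W a b ≠ 0 ∧ a ∈ (Set.univ : Set V) ∧ b ∈ (Set.univ : Set V) :=
            fun a b hab => ⟨hab, trivial, trivial⟩
          exact Relation.ReflTransGen.mono key u v h)
      obtain ⟨z, d, hz, hd⟩ : ∃ (z : ℤ → V) (d : ℤ), Per W T z d L ∧ 0 < d := by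
        rcases lt_or_gt_of_ne hz₀.ne with h | h
        · exact ⟨_, _, per_neg hS.symm hz₀, by omega⟩
        · exact ⟨z₀, d₀, hz₀, h⟩
      obtain ⟨i, hi⟩ := hear V W c T hN hS hTT z d L hz
      obtain ⟨v, Lf, l1, l2, l3, l4, l5⟩ := hleft V W T hS z d L hz hd i hi
      obtain ⟨g, hg⟩ := hnest V W T hS v Lf l1 l2 l3 l4 l5
      exact ⟨v, g, hg⟩
  · left
    intro u
    exact (hV ⟨u⟩).elim

end Pool.Agent.Q26.TG
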