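import Pool.Agent.Q181.TG.Stm5

set_option autoImplicit false

/-! Project TG of helper181, job TG-NEG: above `3 / √2` there is no convergence. -/

namespace Pool.Agent.Q26.TG

open Matrix Filter Topology
open Pool.Agent.Q181.TG
open Pool.Agent.Q181.LR (Eqv)
open Pool.Agent.Helper993.HeisDet

/-- reindexing -/
theorem cok_sub {α β α' β' : Type} (e : α' ≃ α) (f : β' ≃ β) (M : Matrix α β ℤ) :
    Nonempty (Cok (M.submatrix e f) ≃+ Cok M) := by
  refine ⟨(Submodule.Quotient.equiv _ _ (LinearEquiv.funCongrLeft ℤ ℤ f.symm) ?_).toAddEquiv⟩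
  rw [Submodule.map_span]
  congr 1
  ext v
  constructor
  · rintro ⟨_, ⟨a, rfl⟩, rfl⟩
    refine ⟨e a, ?_⟩
    funext b
    change M (e a) b = M (e a) (f (f.symm b))
    rw [Equiv.apply_symm_apply]
  · rintro ⟨a, rfl⟩
    refine ⟨_, ⟨e.symm a, rfl⟩, ?_⟩
    funext b
    change M (e (e.symm a)) (f (f.symm b)) = M a b
    rw [Equiv.apply_symm_apply, Equiv.apply_symm_apply]

theorem t_neg : S_tc → S_req → S_heis → S_neg := by
  intro htc hreq hheis c hc N hN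
  obtain ⟨C₀, hC₀⟩ := Pool.Agent.Q181.LR.upper_rect (hm N)
  obtain ⟨L₀, hL₀⟩ := exists_pow_lt_of_lt_one (sub_pos.2 hc) (by norm_num : (1 / 2 : ℝ) < 1)
  obtain ⟨m, B, hE, -, hB, -⟩ := hC₀ (L₀ + 1) (by omega)
  let e : Fin (1 + m) ≃ Fin 1 ⊕ Fin m := finSumFinEquiv.symm
  have hiso : ∀ (X : Type) [Finite X] [MulAction (Heis ℤ) X],
      Nonempty (Cok (reg X (B.submatrix e e)) ≃+ Cok (reg X (hm N))) := by
    intro X _ _
    obtain ⟨f1⟩ := hreq (Heis ℤ) (Fin 1) (Fin 1) (Fin m) (hm N) B hE X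
    obtain ⟨f2⟩ := cok_sub (Equiv.prodCongr (Equiv.refl X) e) (Equiv.prodCongr (Equiv.refl X) e)
      (reg X B)
    exact ⟨f2.trans f1⟩
  have hfin : ∀ C : ℕ → Subgroup (Heis ℤ), (∀ i, (C i).FiniteIndex) →
      (∀ i, Finite (Cok (reg (Heis ℤ ⧸ C i) (hm N)))) →
      ∀ i, Finite (Cok (reg (Heis ℤ ⧸ C i) (B.submatrix e e))) := by
    intro C h1 h2 i
    have := h1 i
    have := h2 i
    obtain ⟨f⟩ := hiso (Heis ℤ ⧸ C i)
    exact Finite.of_equiv _ f.symm.toEquiv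
  have hlog : ∀ C : ℕ → Subgroup (Heis ℤ), (∀ i, (C i).FiniteIndex) →
      nlog (B.submatrix e e) C = nlog (hm N) C := by
    intro C h1
    funext i
    have := h1 i
    unfold nlog
    rw [htc.1 _ _ (hiso (Heis ℤ ⧸ C i))]
  refine ⟨1 + m, B.submatrix e e, ?_, ?_, ?_⟩
  · refine Pool.Agent.Q181.LW.NormLE_mono (by positivity) ?_
      (Pool.Agent.Q181.LR.NormLE_sub e e B _ hB)
    have h1 : ((1 : ℝ) / 2) ^ (L₀ + 1) ≤ (1 / 2) ^ L₀ :=
      pow_le_pow_of_le_one (by norm_num) (by norm_num) (by omega)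
    linarith
  · intro x hx hx2
    obtain ⟨C, c1, c2, c3, c4, c5, c6, c7⟩ := hheis.1 N hN x hx hx2
    refine ⟨C, c1, c2, c3, c4, c5, hfin C c2 c6, ?_⟩
    rw [hlog C c2]
    exact c7
  · rintro rfl
    obtain ⟨C, c1, c2, c3, c4, c5, c6, c7⟩ := hheis.2
    refine ⟨C, c1, c2, c3, c4, c5, hfin C c2 c6, ?_⟩
    rw [hlog C c2]
    exact c7

end Pool.Agent.Q26.TG
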